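import Mathlib
import Pool.Agent.Q212.LacSums

/-!
# Subset sums of a random lacunary set: the normalised density has liminf zero
-/

namespace Pool.Agent.Results.MP_78f804_pr.LiminfZero

open MeasureTheory Filter Topology
open Pool.Agent.Q212.LacSums

/-- Almost surely the nonnegative sequence `√(log n) |Σ(A) ∩ [n]| / n` is smaller than any given
`ε > 0` for infinitely many `n`; hence for every constant `C > 0` it almost surely does not converge
to `C`. -/
theorem result :
    (∀ᵐ ω ∂law, ∀ ε > 0, ∃ᶠ n in atTop, dens ω n < ε) ∧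
    (∀ C : ℝ, 0 < C → ∀ᵐ ω ∂law, ¬ Tendsto (dens ω) atTop (𝓝 C)) :=
  ⟨liminf_zero, not_tendsto⟩

end Pool.Agent.Results.MP_78f804_pr.LiminfZero
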